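import Pool.Agent.Helper74.NS.Basic

/-!
# The deterministic program which keeps one row

A program given by a list of instructions (a query and a change of the memory, both depending on the memory) is turned
into a branching program; the instructions for one row of the network are executed one after the other.
-/

namespace Pool.Agent.Helper84.NS

open Pool.Agent.Helper74.NS

/-! ## Scripts -/

section script

variable {C A M : Type}

/-- An instruction: the cell to be queried and the change of the memory. -/
abbrev Ins (C A M : Type) : Type := (M → C) × (M → A → M)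

/-- The memory after the instructions. -/
def exec (I : C → A) : List (Ins C A M) → M → M
  | [], m => m
  | p :: L, m => exec I L (p.2 m (I (p.1 m)))

/-- The queries. -/
def qs (I : C → A) : List (Ins C A M) → M → List C
  | [], _ => []
  | p :: L, m => p.1 m :: qs I L (p.2 m (I (p.1 m)))

theorem exec_append (I : C → A) (L L' : List (Ins C A M)) (m : M) :
    exec I (L ++ L') m = exec I L' (exec I L m) := by
  induction L generalizing m with
  | nil => rfl
  | cons p L ih => exact ih _

theorem length_qs (I : C → A) (L : List (Ins C A M)) (m : M) : (qs I L m).length = L.length := by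
  induction L generalizing m with
  | nil => rfl
  | cons p L ih => simp only [qs, List.length_cons, ih]

/-- Change the memory by `f` before the first instruction. -/
def pre (f : M → M) : List (Ins C A M) → List (Ins C A M)
  | [] => []
  | p :: L => (fun m => p.1 (f m), fun m => p.2 (f m)) :: L

theorem exec_pre (I : C → A) (f : M → M) {L : List (Ins C A M)} (h : L ≠ []) (m : M) :
    exec I (pre f L) m = exec I L (f m) := by
  cases L with
  | nil => exact absurd rfl h
  | cons p L => rfl

theorem length_pre (f : M → M) (L : List (Ins C A M)) : (pre f L).length = L.length := by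
  cases L <;> rfl

/-- The states of a deterministic program have at most one successor for each answer. -/
def Det {S : ℕ} (B : NBP C A S) : Prop := ∀ s c next, B.act s = Sum.inl (c, next) → ∀ b, ∃ t, next b = {t}

theorem Det.unique {S : ℕ} {B : NBP C A S} (hB : Det B) {I : C → A} {s t : Fin S} {l : List C} {a : A}
    (h : B.Run I s l t) (ha : B.act t = Sum.inr a) :
    ∀ {l' t' a'}, B.Run I s l' t' → B.act t' = Sum.inr a' → l' = l ∧ a' = a := by
  induction h with
  | nil s =>
    intro l' t' a' h' ha'
    cases h' with
    | nil => exact ⟨rfl, Sum.inr_injective (ha'.symm.trans ha)⟩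
    | cons _ s' _ c next l h1 h2 h3 => rw [ha] at h1; exact absurd h1 (by simp)
  | cons s s' t c next l h1 h2 _ ih =>
    intro l' t' a' h' ha'
    cases h' with
    | nil => rw [ha'] at h1; exact absurd h1 (by simp)
    | cons _ s'' _ c' next' l' h1' h2' h3' =>
      have e := Sum.inl_injective (h1'.symm.trans h1)
      obtain ⟨rfl, rfl⟩ := Prod.mk.inj e
      obtain ⟨x, hx⟩ := hB _ _ _ h1 (I c')
      rw [hx] at h2 h2'
      have e2 : s'' = s' := (Set.mem_singleton_iff.mp h2').trans (Set.mem_singleton_iff.mp h2).symm
      subst e2
      obtain ⟨e3, e4⟩ := ih ha h3' ha'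
      exact ⟨by rw [e3], e4⟩

/-- The program given by a list of instructions. -/
theorem script_program [Fintype M] (L : List (Ins C A M)) (m₀ : M) (fin : M → A) :
    ∃ B : NBP C A ((L.length + 1) * Fintype.card M), Det B ∧ ∀ I, B.Ends I (qs I L m₀) (fin (exec I L m₀)) := by
  classical
  let e : Fin (L.length + 1) × M ≃ Fin ((L.length + 1) * Fintype.card M) :=
    Fintype.equivFinOfCardEq (by rw [Fintype.card_prod, Fintype.card_fin])
  let act : Fin (L.length + 1) × M → (C × (A → Set (Fin ((L.length + 1) * Fintype.card M)))) ⊕ A := fun q =>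
    if h : (q.1 : ℕ) < L.length then
      Sum.inl ((L[(q.1 : ℕ)]).1 q.2, fun b => {e (⟨(q.1 : ℕ) + 1, by omega⟩, (L[(q.1 : ℕ)]).2 q.2 b)})
    else Sum.inr (fin q.2)
  let B : NBP C A ((L.length + 1) * Fintype.card M) :=
    { start := e (0, m₀)
      act := fun s => act (e.symm s) }
  refine ⟨B, fun s c next h b => ?_, fun I => ?_⟩
  · change act (e.symm s) = _ at h
    by_cases h1 : ((e.symm s).1 : ℕ) < L.length
    · simp only [act, h1, dite_true] at h
      have h2 := (Prod.mk.inj (Sum.inl_injective h)).2
      rw [← h2]
      exact ⟨_, rfl⟩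
    · simp only [act, h1, dite_false] at h
      exact absurd h (by simp)
  · have key : ∀ (L' P : List (Ins C A M)) (m : M) (hP : P ++ L' = L) (i : Fin (L.length + 1)),
        (i : ℕ) = P.length → B.Run I (e (i, m)) (qs I L' m) (e (Fin.last _, exec I L' m)) := by
      intro L'
      induction L' with
      | nil =>
        intro P m hP i hi
        rw [List.append_nil] at hP
        have h1 : i = Fin.last _ := Fin.ext (by rw [hi, hP]; rfl)
        rw [h1]
        exact NBP.Run.nil _
      | cons p L' ih =>
        intro P m hP i hi
        have hlen : P.length + (L'.length + 1) = L.length := by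
          rw [← hP, List.length_append, List.length_cons]
        have h1 : (i : ℕ) < L.length := by omega
        have h2 : L[(i : ℕ)] = p := by
          have : L[(i : ℕ)]? = some p := by
            rw [hi, ← hP, List.getElem?_append_right le_rfl, Nat.sub_self]
            rfl
          rw [List.getElem?_eq_getElem h1] at this
          exact Option.some_injective _ this
        refine NBP.Run.cons (e (i, m)) (e (⟨(i : ℕ) + 1, by omega⟩, p.2 m (I (p.1 m)))) _ (p.1 m)
          (fun b => {e (⟨(i : ℕ) + 1, by omega⟩, p.2 m b)}) _ ?_ rfl ?_
        · change act (e.symm (e (i, m))) = _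
          rw [Equiv.symm_apply_apply]
          simp only [act, h1, dite_true, h2]
        · exact ih (P ++ [p]) _ (by rw [List.append_assoc]; exact hP) _
            (by simp only [List.length_append, List.length_singleton]; omega)
    refine ⟨_, key L [] m₀ rfl 0 rfl, ?_⟩
    change act (e.symm (e _)) = _
    rw [Equiv.symm_apply_apply]
    simp [act]

end script

/-! ## The network -/

variable {N d : ℕ} {A : Type} [AddCommGroup A]

/-- The memory: the current row and the part of the next row computed so far. -/
abbrev Mem (N : ℕ) (A : Type) : Type := (Fin N → A) × (Fin N → A)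

/-- Before a row is computed, the new row becomes the current one. -/
def shift (m : Mem N A) : Mem N A := (m.2, 0)

/-- Add the value of the table `s` to the place `u` of the new row. -/
def stepIns (g : Fin d → Equiv.Perm (Fin N)) (p : Fin N × Fin d) : Ins (Cell d A) A (Mem N A) :=
  (fun m => (p.2, m.1 (g p.2 p.1)), fun m b => (m.1, m.2 + Pi.single p.1 b))

/-- Add the value of the table `0` at the place `u` of the row to the place `0` of the new row. -/
def lastIns [NeZero N] [NeZero d] (u : Fin N) : Ins (Cell d A) A (Mem N A) :=
  (fun m => (0, m.1 u), fun m b => (m.1, m.2 + Pi.single 0 b))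

/-- The instructions for one row. -/
noncomputable def block (g : Fin d → Equiv.Perm (Fin N)) : List (Ins (Cell d A) A (Mem N A)) :=
  (Finset.univ : Finset (Fin N × Fin d)).toList.map (stepIns g)

/-- The instructions for the rows `1, ..., R`. -/
noncomputable def rows (g : Fin d → Equiv.Perm (Fin N)) : ℕ → List (Ins (Cell d A) A (Mem N A))
  | 0 => []
  | R + 1 => rows g R ++ pre shift (block g)

/-- The instructions for the result. -/
noncomputable def lastBlock [NeZero N] [NeZero d] : List (Ins (Cell d A) A (Mem N A)) :=
  (Finset.univ : Finset (Fin N)).toList.map lastIns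

theorem exec_step (g : Fin d → Equiv.Perm (Fin N)) (I : Cell d A → A) (l : List (Fin N × Fin d)) (m : Mem N A) :
    exec I (l.map (stepIns g)) m =
      (m.1, m.2 + (l.map (fun p => (Pi.single p.1 (I (p.2, m.1 (g p.2 p.1))) : Fin N → A))).sum) := by
  induction l generalizing m with
  | nil => simp [exec]
  | cons p l ih =>
    simp only [List.map_cons, exec, List.sum_cons]
    rw [ih]
    simp only [stepIns, add_assoc]

theorem exec_last [NeZero N] [NeZero d] (I : Cell d A → A) (l : List (Fin N)) (m : Mem N A) :
    exec I (l.map lastIns) m =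
      (m.1, m.2 + (l.map (fun u => (Pi.single 0 (I (0, m.1 u)) : Fin N → A))).sum) := by
  induction l generalizing m with
  | nil => simp [exec]
  | cons p l ih =>
    simp only [List.map_cons, exec, List.sum_cons]
    rw [ih]
    simp only [lastIns, add_assoc]

theorem exec_block [NeZero N] [NeZero d] (g : Fin d → Equiv.Perm (Fin N)) (I : Cell d A → A) (x y : Fin N → A) :
    exec I (pre shift (block g)) (x, y) = (y, fun u => ∑ s, I (s, y (g s u))) := by
  have hne : (block g : List (Ins (Cell d A) A (Mem N A))) ≠ [] := by
    unfold block
    rw [Ne, List.map_eq_nil_iff, Finset.toList_eq_nil]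
    exact Finset.univ_nonempty.ne_empty
  rw [exec_pre I shift hne]
  unfold block
  rw [exec_step]
  simp only [shift, zero_add]
  congr 1
  rw [Finset.sum_map_toList]
  funext u
  rw [Finset.sum_apply, Fintype.sum_prod_type]
  rw [Finset.sum_eq_single u]
  · simp
  · intro v _ hv
    refine Finset.sum_eq_zero fun s _ => ?_
    rw [Pi.single_eq_of_ne hv.symm]
  · intro h
    exact absurd (Finset.mem_univ u) h

theorem exec_rows [NeZero N] [NeZero d] (g : Fin d → Equiv.Perm (Fin N)) (x0 : Fin N → A) (I : Cell d A → A) (R : ℕ) :
    (exec I (rows g R) ((0, x0) : Mem N A)).2 = val g x0 I R := by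
  induction R with
  | zero => rfl
  | succ R ih =>
    rw [rows, exec_append]
    rcases h : exec I (rows g R) ((0, x0) : Mem N A) with ⟨x, y⟩
    rw [h] at ih
    rw [exec_block]
    change y = _ at ih
    subst ih
    rfl

theorem exec_all [NeZero N] [NeZero d] (g : Fin d → Equiv.Perm (Fin N)) (x0 : Fin N → A) (I : Cell d A → A) (R : ℕ) :
    (exec I (rows g R ++ pre shift lastBlock) ((0, x0) : Mem N A)).2 0 = out g x0 R I := by
  have hne : (lastBlock : List (Ins (Cell d A) A (Mem N A))) ≠ [] := by
    unfold lastBlock
    rw [Ne, List.map_eq_nil_iff, Finset.toList_eq_nil]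
    exact Finset.univ_nonempty.ne_empty
  rw [exec_append, exec_pre I shift hne]
  unfold lastBlock
  rw [exec_last]
  simp only [shift, zero_add, exec_rows]
  rw [Finset.sum_map_toList, Finset.sum_apply]
  unfold out
  refine Finset.sum_congr rfl fun u _ => ?_
  rw [Pi.single_eq_same]

theorem length_rows (g : Fin d → Equiv.Perm (Fin N)) (R : ℕ) :
    (rows g R : List (Ins (Cell d A) A (Mem N A))).length = R * (N * d) := by
  induction R with
  | zero => simp [rows]
  | succ R ih =>
    rw [rows, List.length_append, ih, length_pre, block, List.length_map, Finset.length_toList, Finset.card_univ,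
      Fintype.card_prod, Fintype.card_fin, Fintype.card_fin]
    ring

/-- The deterministic program which keeps the current row and the next one: it computes the result with
`((R d + 1) N + 1) k ^ (2 N)` states and `(R d + 1) N` queries. -/
theorem row_program' [Fintype A] [NeZero N] [NeZero d] (g : Fin d → Equiv.Perm (Fin N)) (x0 : Fin N → A) (R : ℕ) :
    ∃ B : NBP (Cell d A) A (((R * d + 1) * N + 1) * Fintype.card A ^ (2 * N)), Det B ∧
      ∀ I, ∃ l, B.Ends I l (out g x0 R I) ∧ (∀ l' b, B.Ends I l' b → l' = l ∧ b = out g x0 R I) ∧
        l.length = (R * d + 1) * N := by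
  have hlen : (rows g R ++ pre shift lastBlock : List (Ins (Cell d A) A (Mem N A))).length = (R * d + 1) * N := by
    rw [List.length_append, length_rows, length_pre, lastBlock, List.length_map, Finset.length_toList,
      Finset.card_univ, Fintype.card_fin]
    ring
  obtain ⟨B, hB, h⟩ := script_program (rows g R ++ pre shift lastBlock : List (Ins (Cell d A) A (Mem N A)))
    (0, x0) (fun m => m.2 0)
  have hS : ((rows g R ++ pre shift lastBlock : List (Ins (Cell d A) A (Mem N A))).length + 1) *
      Fintype.card (Mem N A) = ((R * d + 1) * N + 1) * Fintype.card A ^ (2 * N) := by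
    rw [hlen, Fintype.card_prod, Fintype.card_fun, Fintype.card_fin, ← pow_add, two_mul]
  rw [← hS]
  refine ⟨B, hB, fun I => ⟨_, by rw [← exec_all]; exact h I, fun l' b hl' => ?_, by rw [length_qs, hlen]⟩⟩
  obtain ⟨t, h1, h2⟩ := h I
  obtain ⟨t', h1', h2'⟩ := hl'
  rw [exec_all] at h2
  exact hB.unique h1 h2 h1' h2'

/-- The statement for the project: at most `(R d + 1) N` different cells are queried. -/
theorem row_program [Fintype A] [NeZero N] [NeZero d] (g : Fin d → Equiv.Perm (Fin N)) (x0 : Fin N → A) (R : ℕ) :
    ∃ B : NBP (Cell d A) A (((R * d + 1) * N + 1) * Fintype.card A ^ (2 * N)),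
      (∀ s c next, B.act s = Sum.inl (c, next) → ∀ b, ∃ t, next b = {t}) ∧
      ∀ I, ∃ l, B.Ends I l (out g x0 R I) ∧ (∀ l' b, B.Ends I l' b → l' = l ∧ b = out g x0 R I) ∧
        Nat.card {c // c ∈ l} ≤ (R * d + 1) * N := by
  classical
  obtain ⟨B, hB, h⟩ := row_program' g x0 R
  refine ⟨B, hB, fun I => ?_⟩
  obtain ⟨l, h1, h2, h3⟩ := h I
  refine ⟨l, h1, h2, ?_⟩
  rw [← h3]
  have h5 : Nat.card {c // c ∈ l} = Nat.card {c // c ∈ l.toFinset} :=
    Nat.card_congr (Equiv.subtypeEquivRight fun c => by rw [List.mem_toFinset])
  rw [h5, Nat.card_eq_fintype_card, Fintype.card_coe]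
  exact List.toFinset_card_le l

end Pool.Agent.Helper84.NS
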